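import Pool.Agent.H857.MX.Master
import Pool.Agent.H857.MX.Good
import Pool.Graph.R_pool_sql_team_seeded_2aa45f1a.Q64.KG.Thms

/-!
# MP_e17fa799_al: finite generation of the K-groups of `A × Z`, for arbitrary smooth projective
varieties `Z` over finite fields and all abelian varieties `A` but a set of isogeny classes of the
exact order of magnitude of its size

Let `g i` (`i` in a finite set `I`) be positive integers. For a prime power `q = p ^ a` let
`families g p a` be the finite set of the families `f i` of Weil polynomials of degrees `2 g i`
relative to `q` with integral Newton polygons. It contains the families of the characteristic
polynomials of the Frobenius endomorphisms of abelian varieties `A i` of dimensions `g i` over the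
field with `q` elements (Weil), which determine the `A i` up to isogeny (Tate). It has about `q ^
(∑ g i (g i + 1) / 4)` elements.

Let the `ρ k` be `r` Weil numbers of weights less than `c` with slopes in `(1 / D) ℤ`, for
instance the eigenvalues of Frobenius on the cohomology of a smooth projective variety over the
field with `q` elements. The family `f` is exceptional if there is a multiplicative relation
between roots of the `f i`, the numbers `ρ k` and `q`, up to roots of unity, which does not come
from the pairs of conjugate roots `z`, `q / z`.

1. The proportion of the exceptional families among all the families is of the exact order of
magnitude `∑ q ^ (- δ (g i) / 2)`, where `δ (g) = g` for `g ≠ 2` and `δ (2) = 1`: it is at most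
`C` times, and at least `1 / C` times this sum. The constant `C` depends only on the `g i`, on
`r`, `c` and `D` - not on `p`, `q` and the `ρ k`.

2. Let `f` be a family which is not exceptional, and let `A` be an abelian variety over the field
with `Q = q ^ s` elements, `s > 0`, which is isogenous to a product of powers of abelian varieties
`A i` with characteristic polynomials `f i`. Let `Z` be **any** smooth projective variety of
dimension `d` over the field with `Q` elements such that

* the eigenvalues of Frobenius on the cohomology of `Z` lie, up to powers, in the group generated
  by the `ρ k` and `q` (`Generated`);
* the motive of `Z` is finite-dimensional in the sense of Kimura and O'Sullivan. This is known for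
  all varieties dominated by products of curves. It implies that the Frobenius endomorphism of `Z`
  satisfies, as a correspondence modulo rational equivalence, a polynomial equation with the same
  roots as on the cohomology; only this is used.

**For all `m ≥ dim (A × Z)` the group `K_m (A × Z)` is finitely generated if and only if `K_m (Z)`
is finitely generated.** More precisely, there are finitely many products `D t` of divisors on `A`
such that for all `m ≥ 0` the exterior products with vector bundles on `A` (or rather elements of
`K_0 (A)`) whose Chern characters are positive multiples of the `D t` give a map from a power of
`K_m (Z)` to `K_m (A × Z)` whose kernel and cokernel are groups of bounded exponent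
(`KunnethBounded`). So all K-groups of `A × Z` are known, up to groups of bounded exponent, if
those of `Z` are. For instance, as `K_m (Z)` is finitely generated if `Z` is a curve (Quillen,
Harder), `K_m (A × Z)` is finitely generated for all curves `Z` as above and all `m ≥ dim A + 1`.
No case of the conjectures of Tate, Beilinson or Parshin is assumed.

What is used of `A` are known theorems (`IsAbelian`): `H(A)` is generated by `H^1`, Frobenius is
diagonalizable on `H^1` (Weil), the theorem of Tate on divisors, and the nilpotence of
homologically trivial correspondences (Kimura). The theory `T` consists of the groups `(K_m (X) ^
ℕ) ⊗ ℚ` of the sequences of elements of the K-groups of `X = Z` and `X = A × Z` (`IsHull`); such a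
group is zero if and only if `K_m (X)` has bounded exponent. As the `γ`-filtration of `K_m (X)` is
finite, these groups are the sums of eigenspaces of the Adams operations; the one of weight `j`
has the bidegree `(2 j - m, j)` (`IsKTheory`). Products with elements of `K_0 (A) ⊗ ℚ = CH (A) ⊗
ℚ`, push-forward (which shifts the weights by `dim A`, by the theorem of Riemann and Roch, as the
tangent bundle of `A` is trivial), and the operation of correspondences are modelled by `RelData`,
with the formal properties in `IsTheory`. The Frobenius endomorphism of `X` acts on K-theory as
the Adams operation `ψ ^ Q` (Hiller, Kratzer), hence as the multiplication by `Q ^ j` on the part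
of weight `j` (`IsPure`). Finally `K_m (Z)` is a direct factor of `K_m (A × Z)`, since `A` has a
rational point, and the groups `K_m (X) / n` are finite for `m ≥ dim X`, as are the K-groups with
coefficients (theorems of Voevodsky and Rost, and of Geisser and Levine).

The framework and the geometric part (`Q64.KG.kGroupsReduce`) are those of the theorem
`AllCMTypesTimes` of the library, which bounds the number of the exceptional slope types of CM
fields and asks that the eigenvalues of the other factor are unrelated to these fields. In other
theorems of the library the exceptional set of isogeny classes has a proportion `O (q ^ (-1 / 6)
log q)`, without a lower bound, for other factors with eigenvalues in a group of small rank over a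
fixed number field. New here are the arbitrary eigenvalues, the uniformity in `p` and the exact
order of magnitude of the exceptional set. The count is that of MP_557161_ag: the slopes bound the
exponents of the relations, up to proportionality, and each relation is a nontrivial algebraic
equation for the coefficients on almost all pencils of Weil polynomials, by the expansions of the
roots at infinity.
-/

set_option autoImplicit false

namespace Pool.Agent.Results.MP_e17fa799_al.SharpExceptionalSet

open Pool.Agent.H857.SX Pool.Agent.H857.MX Pool.Agent.Q64.KG

/-- **The exceptional set.** -/
theorem result {I : Type} [Fintype I] (g : I → ℕ) (hg : ∀ i, 0 < g i) (r D c : ℕ) (hD : 0 < D) :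
    ∃ C : ℝ, 0 < C ∧ ∀ (p : ℕ) [Fact p.Prime] (a : ℕ), 0 < a →
      ((families g p a).Finite ∧
        ∏ i, Real.sqrt ((p : ℝ) ^ a) ^ (g i * (g i + 1) / 2) ≤ C * (families g p a).ncard ∧
        (families g p a).ncard ≤ C * ∏ i, Real.sqrt ((p : ℝ) ^ a) ^ (g i * (g i + 1) / 2)) ∧
      ∀ (w : Fin r → ℕ) (ρ : Fin r → ℂ), (∀ k, w k < c ∧ IsWeilNumber p a D (w k) (ρ k)) →
        (({f ∈ families g p a | ¬ Independent f (p ^ a) ρ}.ncard : ℝ) ≤
            C * (rate g ((p : ℝ) ^ a) * (families g p a).ncard) ∧
          rate g ((p : ℝ) ^ a) * (families g p a).ncard ≤
            C * {f ∈ families g p a | ¬ Independent f (p ^ a) ρ}.ncard) ∧
        ∀ f ∈ families g p a, Independent f (p ^ a) ρ →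
          KGroupsReduce (RootsIn (Generated (p ^ a) ρ)) (p ^ a) f :=
  Pool.Agent.H857.MX.master g hg r D c hD (fun q f R => KGroupsReduce (RootsIn R) q f)
    fun _ _ _ hq _ h0 hR => kGroupsReduce hq (good_of_noRel hR h0)

end Pool.Agent.Results.MP_e17fa799_al.SharpExceptionalSet
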